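import Pool.Agent.helper22.FI.SpecA

/-!
# Project fi, row CFX: conjugation by a `p`-subgroup
-/

set_option autoImplicit false

namespace Pool.Agent.FI

open Pool.Agent.helper58.DC Pool.Agent.DI Pool.Agent.GR Pool.Agent.OB

/-- the action of a subgroup by conjugation -/
@[instance_reducible]
def CFX_act {G : Type} [Group G] (R : Subgroup G) : MulAction R G where
  smul r x := (r : G) * x * (r : G)⁻¹
  one_smul x := by
    show ((1 : R) : G) * x * ((1 : R) : G)⁻¹ = x
    simp
  mul_smul r s x := by
    show ((r * s : R) : G) * x * ((r * s : R) : G)⁻¹ = (r : G) * ((s : G) * x * (s : G)⁻¹) * (r : G)⁻¹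
    rw [Subgroup.coe_mul, mul_inv_rev]
    simp only [mul_assoc]

theorem CFX (h1 : ORP_stmt) : CFX_stmt := by
  intro p M hS G _ _ R hR f hf hinv
  have h := @h1 p M hS R _ _ hR G _ (CFX_act R) f hf (fun r x => hinv r r.2 x)
  have he : @MulAction.fixedPoints R G _ (CFX_act R) = (cz R : Set G) := by
    ext x
    constructor
    · intro hx
      show x ∈ cz R
      rw [show cz R = Subgroup.centralizer (R : Set G) from rfl, Subgroup.mem_centralizer_iff]
      intro r hr
      have h2 : (r : G) * x * r⁻¹ = x := hx ⟨r, hr⟩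
      rw [mul_inv_eq_iff_eq_mul] at h2
      exact h2
    · intro hx
      have hx' : x ∈ Subgroup.centralizer (R : Set G) := hx
      rw [Subgroup.mem_centralizer_iff] at hx'
      intro r
      show (r : G) * x * (r : G)⁻¹ = x
      rw [mul_inv_eq_iff_eq_mul]
      exact hx' r r.2
  rw [he] at h
  exact h

end Pool.Agent.FI
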