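import Pool.Agent.helper95.FI.SpecA

/-!
# Project fi (MP_ad8ced_nt), row FFC: the size of the fundamental domain
-/

set_option autoImplicit false

open Finset

noncomputable section

namespace Pool.Agent.FI

private theorem FFC_abs (x : ℤ) (n : ℕ) (h : x ^ 2 ≤ (n : ℤ)) : -(Nat.sqrt n : ℤ) ≤ x ∧ x ≤ (Nat.sqrt n : ℤ) := by
  have h1 : x.natAbs ^ 2 ≤ n := by
    have : ((x.natAbs ^ 2 : ℕ) : ℤ) ≤ (n : ℤ) := by
      rw [Nat.cast_pow, Int.natAbs_sq]
      exact h
    exact_mod_cast this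
  have h2 : x.natAbs ≤ Nat.sqrt n := Nat.le_sqrt'.2 h1
  omega

theorem FFC (hSIZ : SIZ_stmt) : FFC_stmt := by
  intro u
  have h0 : ∀ z ∈ FF u, z.1 ^ 2 ≤ 2 * (u : ℤ) ∧ z.2 ^ 2 ≤ (u : ℤ) ∧ 0 < u := by
    intro z hz
    classical
    unfold FF at hz
    obtain ⟨_, hFd, hn⟩ := Finset.mem_filter.1 hz
    obtain ⟨h1, h2, h3, _⟩ := hSIZ z hFd
    have h4 : (nn z : ℤ) ≤ u := by exact_mod_cast hn
    exact ⟨by linarith, by linarith, by omega⟩
  refine ⟨?_, fun z hz => ⟨(h0 z hz).1, (h0 z hz).2.1⟩⟩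
  by_cases hu : u = 0
  · have he : FF u = ∅ := by
      rw [Finset.eq_empty_iff_forall_notMem]
      intro z hz
      have := (h0 z hz).2.2
      omega
    rw [he, Finset.card_empty, hu]
    norm_num
  · obtain ⟨a, ha⟩ : ∃ a : ℕ, a = Nat.sqrt (2 * u) := ⟨_, rfl⟩
    obtain ⟨b, hb⟩ : ∃ b : ℕ, b = Nat.sqrt u := ⟨_, rfl⟩
    have hsub : FF u ⊆ Icc (-(a : ℤ)) a ×ˢ Icc (-(b : ℤ)) b := by
      intro z hz
      obtain ⟨h1, h2, _⟩ := h0 z hz
      have e1 := FFC_abs z.1 (2 * u) (by push_cast; exact h1)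
      have e2 := FFC_abs z.2 u h2
      rw [← ha] at e1
      rw [← hb] at e2
      rw [Finset.mem_product, Finset.mem_Icc, Finset.mem_Icc]
      exact ⟨e1, e2⟩
    have hcard : (FF u).card ≤ (2 * a + 1) * (2 * b + 1) := by
      refine (Finset.card_le_card hsub).trans ?_
      rw [Finset.card_product, Int.card_Icc, Int.card_Icc]
      refine Nat.mul_le_mul ?_ ?_
      · omega
      · omega
    have ha2 : a ^ 2 ≤ 2 * u := by rw [ha]; exact Nat.sqrt_le' _
    have hb2 : b ^ 2 ≤ u := by rw [hb]; exact Nat.sqrt_le' _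
    have ha1 : 1 ≤ a := by
      rw [ha]
      exact Nat.le_sqrt'.2 (by omega)
    have hb1 : 1 ≤ b := by
      rw [hb]
      exact Nat.le_sqrt'.2 (by omega)
    have hfin : (2 * a + 1) * (2 * b + 1) ≤ 25 * u := by
      have h1 : (2 * a + 1) * (2 * b + 1) ≤ (3 * a) * (3 * b) := Nat.mul_le_mul (by omega) (by omega)
      have h2 : 2 * (a * b) ≤ a ^ 2 + b ^ 2 := by
        have := two_mul_le_add_sq a b
        rw [mul_assoc] at this
        exact this
      have h3 : (3 * a) * (3 * b) = 9 * (a * b) := by ring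
      rw [h3] at h1
      omega
    exact_mod_cast hcard.trans hfin

end Pool.Agent.FI
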