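import Pool.Agent.helper95.FI.SpecM

/-!
# fi:ORT (MP_ad8ced): from GRP and CNU
-/

set_option autoImplicit false

open Finset

noncomputable section

namespace Pool.Agent.FI

theorem ORT (hGRP : GRP_stmt) (hCNU : CNU_stmt) : ORT_stmt := by
  intro d hd hs
  obtain ⟨k, ψ, hF, hk⟩ := hGRP d hd
  refine ⟨k, ψ, hF, ?_⟩
  have hd0 : 0 < d := Nat.pos_of_ne_zero hs.ne_zero
  have h1 : (k : ℝ) * (Nat.totient d : ℝ) = ∏ p ∈ d.primeFactors, ((p : ℝ) - 1) * (p - ch8 p) := by
    rw [← hCNU d hd hs, ← hk]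
    push_cast
    ring
  have h2 : (Nat.totient d : ℝ) = ∏ p ∈ d.primeFactors, ((p : ℝ) - 1) := by
    have h3 := Nat.totient_mul_prod_primeFactors d
    rw [Nat.prod_primeFactors_of_squarefree hs] at h3
    have h4 : Nat.totient d = ∏ p ∈ d.primeFactors, (p - 1) := by
      apply Nat.eq_of_mul_eq_mul_right hd0
      rw [h3, mul_comm]
    rw [h4, Nat.cast_prod]
    refine Finset.prod_congr rfl fun p hp => ?_
    have h5 : 1 ≤ p := (Nat.prime_of_mem_primeFactors hp).one_le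
    rw [Nat.cast_sub h5, Nat.cast_one]
  have h6 : (∏ p ∈ d.primeFactors, ((p : ℝ) - 1)) ≠ 0 := by
    rw [← h2]
    have := Nat.totient_pos.2 hd0
    positivity
  have h7 : (k : ℝ) = ∏ p ∈ d.primeFactors, ((p : ℝ) - ch8 p) := by
    rw [h2, Finset.prod_mul_distrib, mul_comm] at h1
    exact mul_left_cancel₀ h6 h1
  rw [h7, one_div, ← Finset.prod_inv_distrib]
  refine Finset.prod_congr rfl fun p _ => ?_
  unfold gg
  rw [one_div]

end Pool.Agent.FI
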