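import Pool.Agent.helper95.FI.SpecT

/-!
# Project fi (MP_ad8ced_nt), row PAI: pairs with small determinant
-/

set_option autoImplicit false

open Finset

noncomputable section

namespace Pool.Agent.FI

open scoped Classical in
private theorem PAI_mem (hFFC : FFC_stmt) {N : ℕ} {z : ℤ × ℤ} (hz : z ∈ ZD N) :
    z.1 ^ 2 ≤ 4 * (N : ℤ) ∧ z.2 ^ 2 ≤ 2 * (N : ℤ) ∧ z.1 ≠ 0 ∧ IsCoprime z.1 z.2 ∧
      (N : ℤ) < z.1 ^ 2 + 8 * z.2 ^ 2 := by
  obtain ⟨h1, h2, h3⟩ := Finset.mem_filter.1 (show z ∈ {z ∈ FF (2 * N) | N < nn z ∧ IsCoprime z.1 z.2} from hz)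
  obtain ⟨h4, h5⟩ := (hFFC (2 * N)).2 z h1
  obtain ⟨_, h6, _⟩ := Finset.mem_filter.1
    (show z ∈ {z ∈ Icc (-(2 * (2 * N : ℕ) : ℤ)) (2 * (2 * N : ℕ)) ×ˢ Icc (-(2 * (2 * N : ℕ) : ℤ)) (2 * (2 * N : ℕ)) |
      Fd z ∧ nn z ≤ 2 * N} from h1)
  push_cast at h4 h5
  refine ⟨by linarith, by linarith, ?_, h3, ?_⟩
  · intro h7
    have h8 := h6.1
    rw [h7] at h8
    norm_num at h8
  · have h9 : (N : ℤ) < (nn z : ℤ) := by exact_mod_cast h2
    have h10 : (nn z : ℤ) = |z.1 ^ 2 - 8 * z.2 ^ 2| := by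
      unfold nn N8
      rw [Int.natCast_natAbs]
    have h11 : |z.1 ^ 2 - 8 * z.2 ^ 2| ≤ z.1 ^ 2 + 8 * z.2 ^ 2 := by
      rw [abs_le]
      constructor <;> nlinarith [sq_nonneg z.1, sq_nonneg z.2]
    linarith

private theorem PAI_k (hFFC : FFC_stmt) {N : ℕ} {z w v : ℤ × ℤ} (hz : z ∈ ZD N) (hw : w ∈ ZD N) (hv : v ∈ ZD N)
    (h : dl z w = dl z v) : ∃ k ∈ Icc (-12 : ℤ) 12, w = (v.1 + k * z.1, v.2 + k * z.2) := by
  obtain ⟨_, _, z3, z4, z5⟩ := PAI_mem hFFC hz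
  obtain ⟨w1, w2, _, _, _⟩ := PAI_mem hFFC hw
  obtain ⟨v1, v2, _, _, _⟩ := PAI_mem hFFC hv
  unfold dl at h
  have e1 : z.2 * (w.1 - v.1) = z.1 * (w.2 - v.2) := by linarith
  have e2 : z.1 ∣ (w.1 - v.1) := z4.dvd_of_dvd_mul_left ⟨w.2 - v.2, e1⟩
  obtain ⟨k, hk⟩ := e2
  have e3 : w.2 - v.2 = z.2 * k := by
    rw [hk] at e1
    have : z.1 * (w.2 - v.2) = z.1 * (z.2 * k) := by
      rw [← e1]
      ring
    exact mul_left_cancel₀ z3 this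
  refine ⟨k, ?_, ?_⟩
  · have b1 : (z.1 * k) ^ 2 ≤ 16 * (N : ℤ) := by
      rw [← hk]
      nlinarith [sq_nonneg (w.1 + v.1)]
    have b2 : (z.2 * k) ^ 2 ≤ 8 * (N : ℤ) := by
      rw [← e3]
      nlinarith [sq_nonneg (w.2 + v.2)]
    have b3 : k ^ 2 < 144 := by
      by_contra hcon
      have hcon' : 144 ≤ k ^ 2 := not_lt.1 hcon
      have c1 : (z.1 * k) ^ 2 = z.1 ^ 2 * k ^ 2 := by ring
      have c2 : (z.2 * k) ^ 2 = z.2 ^ 2 * k ^ 2 := by ring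
      rw [c1] at b1
      rw [c2] at b2
      have d1 : z.1 ^ 2 * 144 ≤ z.1 ^ 2 * k ^ 2 := mul_le_mul_of_nonneg_left hcon' (sq_nonneg _)
      have d2 : z.2 ^ 2 * 144 ≤ z.2 ^ 2 * k ^ 2 := mul_le_mul_of_nonneg_left hcon' (sq_nonneg _)
      linarith
    rw [Finset.mem_Icc]
    constructor <;> nlinarith
  · apply Prod.ext
    · change w.1 = v.1 + k * z.1
      linarith
    · change w.2 = v.2 + k * z.2
      linarith

open scoped Classical in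
theorem PAI (hFFC : FFC_stmt) : PAI_stmt := by
  refine ⟨2500, by norm_num, ?_⟩
  intro N D hN
  obtain ⟨S, hS⟩ : ∃ S : Finset ((ℤ × ℤ) × (ℤ × ℤ)), S = {p ∈ ZD N ×ˢ ZD N | |dl p.1 p.2| ≤ D} := ⟨_, rfl⟩
  rw [← hS]
  have hmem : ∀ p ∈ S, p.1 ∈ ZD N ∧ p.2 ∈ ZD N ∧ |dl p.1 p.2| ≤ D := by
    intro p hp
    rw [hS] at hp
    obtain ⟨h1, h2⟩ := Finset.mem_filter.1 hp
    rw [Finset.mem_product] at h1
    exact ⟨h1.1, h1.2, h2⟩
  have h1 : #S ≤ 25 * #(S.image fun p => (p.1, dl p.1 p.2)) := by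
    refine Finset.card_le_mul_card_image S 25 ?_
    intro b hb
    rw [Finset.mem_image] at hb
    obtain ⟨p, hp, rfl⟩ := hb
    obtain ⟨p1, p2, _⟩ := hmem p hp
    have hsub : {a ∈ S | (a.1, dl a.1 a.2) = (p.1, dl p.1 p.2)} ⊆
        (Icc (-12 : ℤ) 12).image fun k => (p.1, (p.2.1 + k * p.1.1, p.2.2 + k * p.1.2)) := by
      intro a ha
      rw [Finset.mem_filter] at ha
      obtain ⟨ha1, ha2⟩ := ha
      obtain ⟨a1, a2, _⟩ := hmem a ha1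
      have e1 : a.1 = p.1 := (Prod.mk.inj ha2).1
      have e2 : dl a.1 a.2 = dl p.1 p.2 := (Prod.mk.inj ha2).2
      rw [e1] at e2
      obtain ⟨k, hk, hk2⟩ := PAI_k hFFC p1 a2 p2 e2
      rw [Finset.mem_image]
      refine ⟨k, hk, ?_⟩
      apply Prod.ext
      · exact e1.symm
      · exact hk2.symm
    refine (Finset.card_le_card hsub).trans (Finset.card_image_le.trans ?_)
    rw [Int.card_Icc]
    norm_num
  have h2 : #(S.image fun p => (p.1, dl p.1 p.2)) ≤ #(ZD N) * (2 * D + 1) := by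
    have hsub : (S.image fun p => (p.1, dl p.1 p.2)) ⊆ ZD N ×ˢ Icc (-(D : ℤ)) D := by
      intro b hb
      rw [Finset.mem_image] at hb
      obtain ⟨p, hp, rfl⟩ := hb
      obtain ⟨p1, _, p3⟩ := hmem p hp
      rw [Finset.mem_product, Finset.mem_Icc]
      exact ⟨p1, abs_le.1 p3⟩
    refine (Finset.card_le_card hsub).trans ?_
    rw [Finset.card_product, Int.card_Icc]
    refine Nat.mul_le_mul le_rfl ?_
    omega
  have h3 : (#(ZD N) : ℝ) ≤ 50 * N := by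
    have h4 : #(ZD N) ≤ #(FF (2 * N)) := Finset.card_le_card (Finset.filter_subset _ _)
    have h5 := (hFFC (2 * N)).1
    have h6 : (#(ZD N) : ℝ) ≤ (#(FF (2 * N)) : ℝ) := by exact_mod_cast h4
    push_cast at h5
    linarith
  have h4 : (#S : ℝ) ≤ 25 * ((#(ZD N) : ℝ) * (2 * D + 1)) := by
    have : #S ≤ 25 * (#(ZD N) * (2 * D + 1)) := h1.trans (Nat.mul_le_mul le_rfl h2)
    exact_mod_cast this
  have hD : (0 : ℝ) ≤ D := Nat.cast_nonneg D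
  have hN0 : (0 : ℝ) ≤ N := Nat.cast_nonneg N
  calc (#S : ℝ) ≤ 25 * ((#(ZD N) : ℝ) * (2 * D + 1)) := h4
    _ ≤ 25 * ((50 * N) * (2 * (D + 1))) := by
        have : (2 : ℝ) * D + 1 ≤ 2 * (D + 1) := by linarith
        have h5 : (#(ZD N) : ℝ) * (2 * D + 1) ≤ (50 * N) * (2 * (D + 1)) :=
          mul_le_mul h3 this (by linarith) (by linarith)
        linarith
    _ = 2500 * N * (D + 1) := by ring

end Pool.Agent.FI
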